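import Pool.Agent.K1H76.HB.EF

/-! Project HB: the energy density of the harmonic map (task 7625). -/

namespace Pool.Agent.K1H76.HB
open Matrix Complex Filter Topology Set
open scoped ComplexOrder

theorem ef_dir_mul {F G : ℂ → M2} {z : ℂ} (v : ℂ)
    (hF : ∀ i j, DifferentiableAt ℝ (fun w => F w i j) z)
    (hG : ∀ i j, DifferentiableAt ℝ (fun w => G w i j) z) :
    dir v (fun w => F w * G w) z = dir v F z * G z + F z * dir v G z := by
  ext i j
  have e : (fun w => (F w * G w) i j) = fun w => ∑ k, F w i k * G w k j := by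
    funext w; rw [Matrix.mul_apply]
  simp only [dir, Matrix.of_apply, Matrix.add_apply, Matrix.mul_apply]
  have hd : ∀ k ∈ Finset.univ, DifferentiableAt ℝ (fun w => F w i k * G w k j) z :=
    fun k _ => (hF i k).mul (hG k j)
  rw [fderiv_fun_sum hd, ContinuousLinearMap.sum_apply, ← Finset.sum_add_distrib]
  apply Finset.sum_congr rfl
  intro k _
  rw [fderiv_fun_mul (hF i k) (hG k j)]
  simp only [ContinuousLinearMap.add_apply, ContinuousLinearMap.smul_apply, smul_eq_mul]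
  ring

theorem ef_diff_mul {F G : ℂ → M2} {z : ℂ}
    (hF : ∀ i j, DifferentiableAt ℝ (fun w => F w i j) z)
    (hG : ∀ i j, DifferentiableAt ℝ (fun w => G w i j) z) (i j : Fin 2) :
    DifferentiableAt ℝ (fun w => (F w * G w) i j) z := by
  have e : (fun w => (F w * G w) i j) = fun w => ∑ k, F w i k * G w k j := by
    funext w; rw [Matrix.mul_apply]
  rw [e]
  exact DifferentiableAt.fun_sum (fun k _ => (hF i k).mul (hG k j))

theorem ef_dir_star {F : ℂ → M2} {z : ℂ} (v : ℂ)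
    (hF : ∀ i j, DifferentiableAt ℝ (fun w => F w i j) z) :
    dir v (fun w => (F w)ᴴ) z = (dir v F z)ᴴ := by
  ext i j
  simp only [dir, Matrix.of_apply, Matrix.conjTranspose_apply]
  have h := ((hF j i).hasFDerivAt.star).fderiv
  rw [h]
  rfl

theorem ef_diff_star {F : ℂ → M2} {z : ℂ}
    (hF : ∀ i j, DifferentiableAt ℝ (fun w => F w i j) z) (i j : Fin 2) :
    DifferentiableAt ℝ (fun w => (F w)ᴴ i j) z := by
  simp only [Matrix.conjTranspose_apply]
  exact (hF j i).star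

theorem ef_dir_one (F : ℂ → M2) (z : ℂ) : dir 1 F z = dzM F z + dbM F z := by
  ext i j
  simp only [dir, dzM, dbM, dz, db, Matrix.of_apply, Matrix.add_apply]
  ring

theorem ef_dir_I (F : ℂ → M2) (z : ℂ) : dir I F z = I • (dzM F z - dbM F z) := by
  ext i j
  simp only [dir, dzM, dbM, dz, db, Matrix.of_apply, Matrix.sub_apply, Matrix.smul_apply,
    smul_eq_mul]
  have : I * I = -1 := Complex.I_mul_I
  linear_combination (fderiv ℝ (fun w => F w i j) z I) * this

/-- the pointwise algebra -/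
theorem ef_alg (p h Φ A Ps : M2) (s : ℂ) (hs : star s = s) 
    (hP1 : h * Ps = Φᴴ * h) (hP2 : Psᴴ * h = h * Φ) :
    ((-((A + s • Φ) * p) + -((s • Ps) * p))ᴴ * h) * p + pᴴ * (h * A + Aᴴ * h) * p +
      pᴴ * h * (-((A + s • Φ) * p) + -((s • Ps) * p)) =
      (-2 * s) • (pᴴ * h * (Φ + Ps) * p) := by
  have e1 : (-((A + s • Φ) * p) + -((s • Ps) * p))ᴴ =
      -(pᴴ * (Aᴴ + s • Φᴴ)) + -(pᴴ * (s • Psᴴ)) := by
    simp [Matrix.conjTranspose_mul, Matrix.conjTranspose_add, Matrix.conjTranspose_smul, hs]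
  rw [e1]
  have e2 : (-(pᴴ * (Aᴴ + s • Φᴴ)) + -(pᴴ * (s • Psᴴ))) * h =
      -(pᴴ * Aᴴ * h) - s • (pᴴ * (Φᴴ * h)) - s • (pᴴ * (Psᴴ * h)) := by
    simp only [add_mul, mul_add, neg_mul, mul_smul_comm, smul_mul_assoc, mul_assoc, smul_neg, neg_add]
    abel
  rw [e2, ← hP1, hP2]
  simp only [add_mul, mul_add, sub_mul, neg_mul, mul_neg, mul_smul_comm, smul_mul_assoc, mul_assoc,
    smul_add, smul_neg]
  module

theorem ef_algI (p h Φ A Ps : M2) (s : ℂ) (hs : star s = s) 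
    (hP1 : h * Ps = Φᴴ * h) (hP2 : Psᴴ * h = h * Φ) :
    ((I • (-((A + s • Φ) * p) - -((s • Ps) * p)))ᴴ * h) * p + pᴴ * (I • (h * A - Aᴴ * h)) * p +
      pᴴ * h * (I • (-((A + s • Φ) * p) - -((s • Ps) * p))) =
      (-2 * s * I) • (pᴴ * h * (Φ - Ps) * p) := by
  have e1 : (I • (-((A + s • Φ) * p) - -((s • Ps) * p)))ᴴ =
      (-I) • (-(pᴴ * (Aᴴ + s • Φᴴ)) - -(pᴴ * (s • Psᴴ))) := by
    simp [Matrix.conjTranspose_mul, Matrix.conjTranspose_add, Matrix.conjTranspose_smul,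
      Matrix.conjTranspose_sub, hs]
  rw [e1]
  have e2 : ((-I) • (-(pᴴ * (Aᴴ + s • Φᴴ)) - -(pᴴ * (s • Psᴴ)))) * h =
      (-I) • (-(pᴴ * Aᴴ * h) - s • (pᴴ * (Φᴴ * h)) + s • (pᴴ * (Psᴴ * h))) := by
    simp only [add_mul, mul_add, sub_mul, neg_mul, mul_smul_comm, smul_mul_assoc, mul_assoc,
      smul_neg, neg_add, smul_add, smul_sub, sub_neg_eq_add]
    abel
  rw [e2, ← hP1, hP2]
  simp only [add_mul, mul_add, sub_mul, mul_sub, neg_mul, mul_neg, mul_smul_comm, smul_mul_assoc,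
    mul_assoc, smul_add, smul_neg, smul_sub]
  module

theorem t_EF : S_EF := by
  intro U Φ s h P hU hc hpos hdet hP z hz
  have hnz : U ∈ 𝓝 z := hU.mem_nhds hz
  have dh : ∀ i j, DifferentiableAt ℝ (fun w => h w i j) z := fun i j =>
    ((hc i j).differentiableOn (by norm_num)).differentiableAt hnz
  have dP : ∀ i j, DifferentiableAt ℝ (fun w => P w i j) z := fun i j =>
    (hP.diff i j).differentiableAt hnz
  have hH : (h z)ᴴ = h z := (hpos z hz).isHermitian
  have hu : IsUnit (h z).det := by rw [hdet z hz]; exact isUnit_one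
  have hpu : IsUnit (P z).det := by rw [hP.det z hz]; exact isUnit_one
  have dirf : ∀ v : ℂ, dir v (fun w => (P w)ᴴ * h w * P w) z =
      ((dir v P z)ᴴ * h z) * P z + (P z)ᴴ * dir v h z * P z + (P z)ᴴ * h z * dir v P z := by
    intro v
    rw [ef_dir_mul v (F := fun w => (P w)ᴴ * h w) (G := P)
      (ef_diff_mul (ef_diff_star dP) dh) dP, ef_dir_mul v (ef_diff_star dP) dh,
      ef_dir_star v dP, add_mul]
  -- derivatives of `h`
  have hdirH : ∀ v : ℂ, (dir v h z)ᴴ = dir v h z := by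
    intro v
    rw [← ef_dir_star v dh]
    ext i j
    simp only [dir, Matrix.of_apply]
    have : (fun w => (h w)ᴴ i j) =ᶠ[𝓝 z] fun w => h w i j := by
      filter_upwards [hnz] with w hw
      rw [(hpos w hw).isHermitian]
    rw [this.fderiv_eq]
  have hdz : dzM h z = h z * conn h z := by
    unfold conn
    rw [Matrix.mul_nonsing_inv_cancel_left _ _ hu]
  have hdb : dbM h z = (conn h z)ᴴ * h z := by
    have h1 : dbM h z = (dzM h z)ᴴ := by
      have a1 := ef_dir_one h z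
      have a2 := ef_dir_I h z
      have a3 : dzM h z = (1 / 2 : ℂ) • (dir 1 h z - I • dir I h z) := by
        rw [a1, a2, smul_smul, Complex.I_mul_I]; module
      have a4 : dbM h z = (1 / 2 : ℂ) • (dir 1 h z + I • dir I h z) := by
        rw [a1, a2, smul_smul, Complex.I_mul_I]; module
      rw [a4, a3, Matrix.conjTranspose_smul, Matrix.conjTranspose_sub, Matrix.conjTranspose_smul,
        hdirH, hdirH]
      simp
    rw [h1, hdz, Matrix.conjTranspose_mul, hH]
  have hP1 : h z * adj (h z) (Φ z) = (Φ z)ᴴ * h z := by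
    unfold adj
    rw [mul_assoc, Matrix.mul_nonsing_inv_cancel_left _ _ hu]
  have hP2 : (adj (h z) (Φ z))ᴴ * h z = h z * Φ z := by
    have := congrArg Matrix.conjTranspose hP1
    rw [Matrix.conjTranspose_mul, Matrix.conjTranspose_mul, Matrix.conjTranspose_conjTranspose,
      hH] at this
    exact this
  have hs : star (s : ℂ) = (s : ℂ) := Complex.conj_ofReal s
  have f1 : dir 1 (fun w => (P w)ᴴ * h w * P w) z =
      (-2 * (s : ℂ)) • ((P z)ᴴ * h z * (Φ z + adj (h z) (Φ z)) * P z) := by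
    rw [dirf, ef_dir_one, ef_dir_one, hP.dz z hz, hP.db z hz, hdz, hdb]
    exact ef_alg (P z) (h z) (Φ z) (conn h z) (adj (h z) (Φ z)) s hs hP1 hP2
  have f2 : dir I (fun w => (P w)ᴴ * h w * P w) z =
      (-2 * (s : ℂ) * I) • ((P z)ᴴ * h z * (Φ z - adj (h z) (Φ z)) * P z) := by
    rw [dirf, ef_dir_I, ef_dir_I, hP.dz z hz, hP.db z hz, hdz, hdb]
    exact ef_algI (P z) (h z) (Φ z) (conn h z) (adj (h z) (Φ z)) s hs hP1 hP2
  have hfu : IsUnit ((P z)ᴴ * h z * P z).det := by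
    rw [Matrix.det_mul, Matrix.det_mul, Matrix.det_conjTranspose, hP.det z hz, hdet z hz]
    simp
  have cancel : ∀ X : M2, ((P z)ᴴ * h z * P z)⁻¹ * ((P z)ᴴ * h z * X * P z) =
      (P z)⁻¹ * X * P z := by
    intro X
    have : (P z)ᴴ * h z * X * P z = ((P z)ᴴ * h z * P z) * ((P z)⁻¹ * X * P z) := by
      rw [← mul_assoc ((P z)ᴴ * h z * P z), ← mul_assoc ((P z)ᴴ * h z * P z),
        mul_assoc ((P z)ᴴ * h z) (P z) (P z)⁻¹, Matrix.mul_nonsing_inv _ hpu, mul_one]
    rw [this, Matrix.nonsing_inv_mul_cancel_left _ _ hfu]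
  have tr : ∀ X : M2, (((P z)⁻¹ * X * P z) * ((P z)⁻¹ * X * P z)).trace = (X * X).trace := by
    intro X
    have : ((P z)⁻¹ * X * P z) * ((P z)⁻¹ * X * P z) = (P z)⁻¹ * (X * X * P z) := by
      rw [mul_assoc ((P z)⁻¹ * X), ← mul_assoc (P z), ← mul_assoc (P z),
        Matrix.mul_nonsing_inv _ hpu, one_mul]
      simp only [mul_assoc]
    rw [this, Matrix.trace_mul_comm, mul_assoc, Matrix.mul_nonsing_inv _ hpu, mul_one]
  unfold edens
  rw [f1, f2]
  simp only [mul_smul_comm, smul_mul_assoc, cancel, tr, Matrix.trace_smul, smul_smul]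
  unfold en
  have t1 : ((Φ z + adj (h z) (Φ z)) * (Φ z + adj (h z) (Φ z))).trace =
      (Φ z * Φ z).trace + (adj (h z) (Φ z) * adj (h z) (Φ z)).trace +
        2 * (Φ z * adj (h z) (Φ z)).trace := by
    rw [add_mul, mul_add, mul_add, Matrix.trace_add, Matrix.trace_add, Matrix.trace_add,
      Matrix.trace_mul_comm (adj (h z) (Φ z)) (Φ z)]
    ring
  have t2 : ((Φ z - adj (h z) (Φ z)) * (Φ z - adj (h z) (Φ z))).trace =
      (Φ z * Φ z).trace + (adj (h z) (Φ z) * adj (h z) (Φ z)).trace -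
        2 * (Φ z * adj (h z) (Φ z)).trace := by
    rw [sub_mul, mul_sub, mul_sub, Matrix.trace_sub, Matrix.trace_sub, Matrix.trace_sub,
      Matrix.trace_mul_comm (adj (h z) (Φ z)) (Φ z)]
    ring
  rw [t1, t2]
  simp only [smul_eq_mul]
  rw [← Complex.add_re]
  have : (-2 * (s : ℂ) * (-2 * (s : ℂ))) * ((Φ z * Φ z).trace +
      (adj (h z) (Φ z) * adj (h z) (Φ z)).trace + 2 * (Φ z * adj (h z) (Φ z)).trace) +
      (-2 * (s : ℂ) * I * (-2 * (s : ℂ) * I)) * ((Φ z * Φ z).trace +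
      (adj (h z) (Φ z) * adj (h z) (Φ z)).trace - 2 * (Φ z * adj (h z) (Φ z)).trace) =
      ((16 * s ^ 2 : ℝ) : ℂ) * (Φ z * adj (h z) (Φ z)).trace := by
    have hI : I * I = -1 := Complex.I_mul_I
    push_cast
    linear_combination (4 * (s : ℂ) ^ 2 * ((Φ z * Φ z).trace +
      (adj (h z) (Φ z) * adj (h z) (Φ z)).trace - 2 * (Φ z * adj (h z) (Φ z)).trace)) * hI
  rw [this, Complex.re_ofReal_mul]
  ring

end Pool.Agent.K1H76.HB
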